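import Pool.Agent.Run7.h551.GP.Small

/-!
# Four triples on seven vertices, for triple systems closed under Gumm operations

Gumm operations of length `n` on a set are ternary operations `q 0, ..., q n, p` with
`q 0 (x, y, z) = x`, `q i (x, y, x) = x`, `q i (x, z, z) = q (i + 1) (x, z, z)` for even `i < n`,
`q i (x, x, z) = q (i + 1) (x, x, z)` for odd `i < n`, `q n (x, z, z) = p (x, z, z)` and
`p (x, x, z) = z`. By a theorem of Gumm, the varieties with such terms are the congruence modular
ones: groups, rings, modules, quasigroups, lattices, everything with a Malcev term, a majority term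
or a near unanimity term.

A *Gumm piece* is a set of triples which is a relation between three disjoint sets of vertices,
closed under componentwise application of **some** (arbitrary, on different vertex classes
unrelated) Gumm operations of the same length.

Let `H` be a triple system on `n` vertices which is the union of `L` Gumm pieces, and assume that
seven vertices never contain four triples of `H`. Then `|H| ≤ 3 L (n / 3)^{3/2}`. So the bound `o(n²)`
of the question holds for these triple systems as long as `L = o(n^{1/2})`. For one piece this is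
the exact maximum up to the factor `3`: the grid has `n = 3 q²` vertices and `q³ = (n / 3)^{3/2}`
triples.

Idea of the proof. The kernels `a`, `b`, `c` of the coordinates are congruences of an algebra with
Gumm operations, so the lattice of congruences is modular. In the middle of the free modular lattice
with three generators there is a sublattice `M₃` between `e = (a ∧ b) ∨ (b ∧ c) ∨ (a ∧ c)` and
`d = (a ∨ b) ∧ (b ∨ c) ∧ (a ∨ c)`. On the classes of the middle elements of `M₃` the last operation
is a Malcev operation modulo `e`. Hence these congruences permute, and every class of `d` is a latin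
square whose cells are classes of `e`. Two rows of a latin square with two or more columns contain
four triples on seven vertices. So the latin squares have one cell, `d = e`, the classes of `e` have
at most three elements, and the quotient by `d` is bounded with the inequality of Loomis and
Whitney.
-/

set_option autoImplicit false

namespace Pool.Agent.Results.MP_87578a_co.GummPieces

open Finset Pool.Agent.R181.Maj Pool.Agent.Run7.h551.GP

theorem upper (L : ℕ) (V : Type) [Fintype V] (H : Set (Finset V))
    (F : Fin L → Set (Finset V)) (hF : ∀ i, GummPiece 3 (F i)) (hH : H = ⋃ i, F i)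
    (hsp : SpanMore H 4 7) :
    (H.ncard : ℝ) ≤ 3 * L * ((Fintype.card V : ℝ) / 3) ^ (3 / 2 : ℝ) := by
  classical
  have h1 : ∀ i, ((F i).ncard : ℝ) ≤ 3 * ((Fintype.card V : ℝ) / 3) ^ (3 / 2 : ℝ) := by
    intro i
    have h2 := piece_bound4 (H := H) hsp (hF i) (by rw [hH]; exact Set.subset_iUnion F i)
    refine le_of_sq_le_sq ?_ (by positivity)
    have h3 : (((Fintype.card V : ℝ) / 3) ^ (3 / 2 : ℝ)) ^ 2 =
        ((Fintype.card V : ℝ) / 3) ^ 3 := by
      rw [← Real.rpow_natCast, ← Real.rpow_mul (by positivity), ← Real.rpow_natCast _ 3]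
      norm_num
    rw [mul_pow, h3]
    have h4 : (27 : ℝ) * ((F i).ncard : ℝ) ^ 2 ≤ 9 * (Fintype.card V : ℝ) ^ 3 := by
      exact_mod_cast h2
    have h5 : (3 : ℝ) ^ 2 * ((Fintype.card V : ℝ) / 3) ^ 3 =
        (9 * (Fintype.card V : ℝ) ^ 3) / 27 := by
      field_simp
      ring
    rw [h5, le_div_iff₀ (by norm_num)]
    linarith [h4]
  have h6 : H.ncard ≤ ∑ i : Fin L, (F i).ncard := by
    rw [hH]
    exact Set.ncard_iUnion_le_of_fintype F
  calc (H.ncard : ℝ) ≤ ((∑ i : Fin L, (F i).ncard : ℕ) : ℝ) := by exact_mod_cast h6
    _ = ∑ i : Fin L, ((F i).ncard : ℝ) := by push_cast; rfl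
    _ ≤ ∑ _i : Fin L, 3 * ((Fintype.card V : ℝ) / 3) ^ (3 / 2 : ℝ) :=
        sum_le_sum fun i _ => h1 i
    _ = 3 * L * ((Fintype.card V : ℝ) / 3) ^ (3 / 2 : ℝ) := by
        rw [sum_const, card_univ, Fintype.card_fin, nsmul_eq_mul]; ring

/-- **Theorem.** (1) Let `H` be a triple system on `n` vertices which is the union of `L` Gumm
pieces. If any four triples of `H` span more than seven vertices, then `|H| ≤ 3 L (n / 3)^{3/2}`.
(2) For all `q` there is a Gumm piece with `n = 3 q²` vertices and `q³ = (n / 3)^{3/2}` triples such
that any four triples span more than seven vertices. (3) Relations closed under componentwise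
Malcev operations, and cosets of subgroups of products of three groups are Gumm pieces. -/
theorem result :
    (∀ (L : ℕ) (V : Type) [Fintype V] (H : Set (Finset V)) (F : Fin L → Set (Finset V)),
      (∀ i, GummPiece 3 (F i)) → H = ⋃ i, F i → SpanMore H 4 7 →
      (H.ncard : ℝ) ≤ 3 * L * ((Fintype.card V : ℝ) / 3) ^ (3 / 2 : ℝ)) ∧
    (∀ q : ℕ, ∃ (V : Type) (_ : Fintype V) (H : Set (Finset V)), Fintype.card V = 3 * q ^ 2 ∧
      GummPiece 3 H ∧ H.ncard = q ^ 3 ∧ SpanMore H 4 7) ∧
    (∀ (V : Type) (X : Fin 3 → Type) (m : ∀ j, X j → X j → X j → X j),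
      (∀ j x z, m j x z z = x ∧ m j x x z = z) →
      ∀ f : (Σ j, X j) → V, Function.Injective f → ∀ E : Set (∀ j, X j),
      (∀ x ∈ E, ∀ y ∈ E, ∀ z ∈ E, (fun j => m j (x j) (y j) (z j)) ∈ E) →
      GummPiece 3 (edge f '' E)) ∧
    (∀ (V : Type) (X : Fin 3 → Type) [∀ j, Group (X j)] (U : Subgroup (∀ j, X j))
      (a : ∀ j, X j) (f : (Σ j, X j) → V), Function.Injective f →
      GummPiece 3 (edge f '' {x | a⁻¹ * x ∈ U})) := by
  refine ⟨fun L V _ H F hF hH hsp => upper L V H F hF hH hsp, ?_,
    fun _ _ m hm f hf E hE => malcev_piece m hm f hf E hE,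
    fun _ _ _ U a f hf => coset_piece U a f hf⟩
  intro q
  obtain ⟨V, hV, H, h1, h2, h3, h4⟩ := grid_exists q
  exact ⟨V, hV, H, h1, h2, h3, h4 4 (by norm_num) (by norm_num)⟩

end Pool.Agent.Results.MP_87578a_co.GummPieces
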